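import Pool.Agent.helper96.LK.SpecH

/-!
# Project lk: (MP_940ffa_an), statement PT
-/

open Finset Filter Polynomial

noncomputable section

namespace Pool.Agent.LK

/-- a polynomial vanishing at all large naturals is zero -/
theorem PT_poly (p : Polynomial ℂ) (h : ∀ᶠ j : ℕ in atTop, p.eval (j : ℂ) = 0) (z : ℂ) :
    p.eval z = 0 := by
  have hp : p = 0 := by
    apply Polynomial.eq_zero_of_infinite_isRoot
    obtain ⟨N, hN⟩ := eventually_atTop.1 h
    have h1 : ((fun j : ℕ => (j : ℂ)) '' Set.Ici N).Infinite :=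
      (Set.Ici_infinite N).image (fun a _ b _ hab => by exact_mod_cast hab)
    refine h1.mono ?_
    rintro _ ⟨j, hj, rfl⟩
    exact hN j hj
  rw [hp, Polynomial.eval_zero]

/-- shift by `β`, general offset -/
theorem PT_beta {a : ℤ} (ha : 2 ≤ a) (P : Pt) (m n : ℤ) (j : ℕ) :
    sg a (shift a P (m, n + 1)) j * (yy a P - n) =
      sg a (shift a P (m, n)) j * (yy a P - n - j) := by
  have h := sg_beta ha (shift a P (m, n)) j
  rw [shift_shift, yy_shift ha] at h
  have e : ((m, n) : Pt) + (0, 1) = (m, n + 1) := by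
    simp
  rw [e] at h
  exact h

/-- shift by `2 α`, general offset -/
theorem PT_alpha {a : ℤ} (ha : 2 ≤ a) (P : Pt) (m n : ℤ) (j : ℕ) :
    sg a (shift a P (m + 2, n)) j * (xx a P - m / 2) =
      sg a (shift a P (m, n)) j * (xx a P - m / 2 - j) := by
  have h := sg_alpha2 ha (shift a P (m, n)) j
  rw [shift_shift, xx_shift ha] at h
  have e : ((m, n) : Pt) + (2, 0) = (m + 2, n) := by
    simp
  rw [e] at h
  exact h

theorem PT_sumL (P : Pt) (f : Pt → ℂ) : ∑ o ∈ L0 P ∪ {(0, 1), (1, 0)}, f o =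
    (if 1 ≤ P.1 ∧ 1 ≤ P.2 then f (0, 0) else 0) + (f (0, 1) + f (1, 0)) := by
  unfold L0
  split_ifs
  · have e : ({(0, 0)} : Finset Pt) ∪ {(0, 1), (1, 0)} = {(0, 0), (0, 1), (1, 0)} := by decide
    rw [e, sum_insert (by decide), sum_insert (by decide), sum_singleton]
  · rw [empty_union, sum_insert (by decide), sum_singleton, zero_add]

/-- the algebraic part -/
theorem PT_alg (x y A00 A01 A10 b B01 B10 : ℂ) (hx : x ≠ 0) (hy : y ≠ 0) (hy1 : y - 1 ≠ 0)
    (hy2 : y - 2 ≠ 0)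
    (F0 : ∀ z : ℂ, x * y * (y - 1) * (y - 2) * z * A00 + x * (y - 1) * (y - 2) * z * (y - z) * A01 +
      b * x * (y - 2) * (y - z) * (y - 1 - z) + B01 * x * (y - z) * (y - 1 - z) * (y - 2 - z) -
      B10 * y * (y - 1) * (y - 2) * (x - z) = 0)
    (F1 : ∀ z : ℂ, y * (y - 1) * z * A10 + B10 * (y - z) * (y - 1 - z) - b * y * (y - 1) -
      B01 * (y - 1) * (y - z) = 0) :
    A00 = 0 ∧ A01 = 0 ∧ A10 = 0 ∧ b = 0 ∧ B01 = 0 ∧ B10 = 0 := by
  have e1 : B01 = 0 := by
    have h : x * B01 = 0 := by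
      linear_combination (-1 / 6) * F0 3 + (1 / 2) * F0 2 - (1 / 2) * F0 1 + (1 / 6) * F0 0
    exact (mul_eq_zero.1 h).resolve_left hx
  subst e1
  have e2 : b = B10 := by
    have h : (x * y * (y - 1) * (y - 2)) * (b - B10) = 0 := by
      linear_combination F0 0
    exact sub_eq_zero.1 ((mul_eq_zero.1 h).resolve_left (by
      exact mul_ne_zero (mul_ne_zero (mul_ne_zero hx hy) hy1) hy2))
  subst e2
  have e3 : b = 0 := by
    linear_combination (1 / 2) * F1 2 - F1 1 + (1 / 2) * F1 0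
  subst e3
  have e4 : A10 = 0 := by
    have h : (y * (y - 1)) * A10 = 0 := by linear_combination F1 1
    exact (mul_eq_zero.1 h).resolve_left (mul_ne_zero hy hy1)
  have e5 : A00 = 0 := by
    have h : (x * y * (y - 1) * (y - 2) * y) * A00 = 0 := by linear_combination F0 y
    exact (mul_eq_zero.1 h).resolve_left
      (mul_ne_zero (mul_ne_zero (mul_ne_zero (mul_ne_zero hx hy) hy1) hy2) hy)
  have e6 : A01 = 0 := by
    have h : (x * (y - 1) * (y - 2) * (y - 1)) * A01 = 0 := by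
      subst e5
      linear_combination F0 1
    exact (mul_eq_zero.1 h).resolve_left
      (mul_ne_zero (mul_ne_zero (mul_ne_zero hx hy1) hy2) hy1)
  exact ⟨e5, e6, e4, rfl, rfl, rfl⟩

theorem PT (NI : NI_stmt) : PT_stmt := by
  intro a dl ha h0 h1 P hP hT A B hR
  have ha2 : 2 ≤ a := by omega
  have hxz : ∀ z : ℤ, xx a P ≠ z := fun z => by
    have := (NI a dl ha h0 h1 P hP (0, 0) z).1
    rwa [shift_zero] at this
  have hyz : ∀ z : ℤ, yy a P ≠ z := fun z => by
    have := (NI a dl ha h0 h1 P hP (0, 0) z).2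
    rwa [shift_zero] at this
  have hx1z : ∀ z : ℤ, xx a (shift a P (1, 0)) ≠ z := fun z => (NI a dl ha h0 h1 P hP (1, 0) z).1
  have hy1z : ∀ z : ℤ, yy a (shift a P (1, 0)) ≠ z := fun z => (NI a dl ha h0 h1 P hP (1, 0) z).2
  -- the sets
  have hS : ¬isS dl P := by
    simp only [isS, isT] at hT ⊢
    omega
  have hA : LA a dl P = {(0, 0), (0, 1), (1, 0)} := by
    rw [LA, if_neg hS, if_pos hT]
  have hB : LB a dl P = L0 P ∪ {(0, 1), (1, 0)} := by
    rw [LB, if_neg hS, if_pos (Or.inl hT)]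
  have sA : ∀ f : Pt → ℂ, ∑ o ∈ ({(0, 0), (0, 1), (1, 0)} : Finset Pt), f o =
      f (0, 0) + (f (0, 1) + f (1, 0)) := fun f => by
    rw [sum_insert (by decide), sum_insert (by decide), sum_singleton]
  set b : ℂ := if 1 ≤ P.1 ∧ 1 ≤ P.2 then B (0, 0) else 0 with hb
  set x := xx a P with hx
  set y := yy a P with hy
  -- shifts
  have s01 : ∀ j : ℕ, sg a (shift a P (0, 1)) j * y = sg a P j * (y - j) := fun j =>
    sg_beta ha2 P j
  have s02 : ∀ j : ℕ, sg a (shift a P (0, 2)) j * (y - 1) =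
      sg a (shift a P (0, 1)) j * (y - 1 - j) := fun j => by
    have h := PT_beta ha2 P 0 1 j
    norm_num at h
    exact h
  have s03 : ∀ j : ℕ, sg a (shift a P (0, 3)) j * (y - 2) =
      sg a (shift a P (0, 2)) j * (y - 2 - j) := fun j => by
    have h := PT_beta ha2 P 0 2 j
    norm_num at h
    exact h
  have s20 : ∀ j : ℕ, sg a (shift a P (2, 0)) j * x = sg a P j * (x - j) := fun j =>
    sg_alpha2 ha2 P j
  have s11 : ∀ j : ℕ, sg a (shift a P (1, 1)) j * y = sg a (shift a P (1, 0)) j * (y - j) :=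
    fun j => by
    have h := PT_beta ha2 P 1 0 j
    norm_num at h
    exact h
  have s12 : ∀ j : ℕ, sg a (shift a P (1, 2)) j * (y - 1) =
      sg a (shift a P (1, 1)) j * (y - 1 - j) := fun j => by
    have h := PT_beta ha2 P 1 1 j
    norm_num at h
    exact h
  have hg0 : ∀ j : ℕ, sg a P j ≠ 0 := fun j => mul_ne_zero (ch_ne_zero hxz j) (ch_ne_zero hyz j)
  have hg1 : ∀ j : ℕ, sg a (shift a P (1, 0)) j ≠ 0 := fun j =>
    mul_ne_zero (ch_ne_zero hx1z j) (ch_ne_zero hy1z j)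
  obtain ⟨hR0, hR1⟩ := hR
  have E0 : ∀ j : ℕ, Rel a dl A B P 0 j = A (0, 0) * ((j * sg a P j : ℚ) : ℂ) +
      A (0, 1) * ((j * sg a (shift a P (0, 1)) j : ℚ) : ℂ) +
      b * ((sg a (shift a P (0, 2)) j : ℚ) : ℂ) + B (0, 1) * ((sg a (shift a P (0, 3)) j : ℚ) : ℂ) -
      B (1, 0) * ((sg a (shift a P (2, 0)) j : ℚ) : ℂ) := fun j => by
    rw [Rel, hA, hB, sum_filter, sum_filter, sum_filter, sA, PT_sumL, PT_sumL, hb, shift_zero]
    norm_num
    ring
  have E1 : ∀ j : ℕ, Rel a dl A B P 1 j = A (1, 0) * ((j * sg a (shift a P (1, 0)) j : ℚ) : ℂ) +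
      B (1, 0) * ((sg a (shift a P (1, 2)) j : ℚ) : ℂ) -
      b * ((sg a (shift a P (1, 0)) j : ℚ) : ℂ) -
      B (0, 1) * ((sg a (shift a P (1, 1)) j : ℚ) : ℂ) := fun j => by
    rw [Rel, hA, hB, sum_filter, sum_filter, sum_filter, sA, PT_sumL, PT_sumL, hb]
    norm_num
    ring
  have hy_1 : ((y : ℂ) - 1) ≠ 0 := by
    intro h
    apply hyz 1
    have : (y : ℂ) = 1 := by linear_combination h
    exact_mod_cast this
  have hy_2 : ((y : ℂ) - 2) ≠ 0 := by
    intro h
    apply hyz 2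
    have : (y : ℂ) = 2 := by linear_combination h
    exact_mod_cast this
  have hy_0 : (y : ℂ) ≠ 0 := by
    intro h
    apply hyz 0
    exact_mod_cast h
  have hx_0 : (x : ℂ) ≠ 0 := by
    intro h
    apply hxz 0
    exact_mod_cast h
  have F0 : ∀ z : ℂ, (x : ℂ) * y * (y - 1) * (y - 2) * z * A (0, 0) +
      x * (y - 1) * (y - 2) * z * (y - z) * A (0, 1) +
      b * x * (y - 2) * (y - z) * (y - 1 - z) + B (0, 1) * x * (y - z) * (y - 1 - z) * (y - 2 - z) -
      B (1, 0) * y * (y - 1) * (y - 2) * (x - z) = 0 := by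
    intro z
    have h := PT_poly (C ((x : ℂ) * y * (y - 1) * (y - 2) * A (0, 0)) * X +
      C ((x : ℂ) * (y - 1) * (y - 2) * A (0, 1)) * X * (C (y : ℂ) - X) +
      C (b * x * (y - 2)) * (C (y : ℂ) - X) * (C ((y : ℂ) - 1) - X) +
      C (B (0, 1) * x) * (C (y : ℂ) - X) * (C ((y : ℂ) - 1) - X) * (C ((y : ℂ) - 2) - X) -
      C (B (1, 0) * y * (y - 1) * (y - 2)) * (C (x : ℂ) - X)) ?_ z
    · simp only [eval_add, eval_mul, eval_sub, eval_C, eval_X] at h
      linear_combination h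
    · filter_upwards [hR0] with j hj
      rw [E0 j] at hj
      have c01 : ((sg a (shift a P (0, 1)) j : ℚ) : ℂ) * y = (sg a P j : ℚ) * (y - j) := by
        exact_mod_cast s01 j
      have c02 : ((sg a (shift a P (0, 2)) j : ℚ) : ℂ) * (y - 1) =
          (sg a (shift a P (0, 1)) j : ℚ) * (y - 1 - j) := by exact_mod_cast s02 j
      have c03 : ((sg a (shift a P (0, 3)) j : ℚ) : ℂ) * (y - 2) =
          (sg a (shift a P (0, 2)) j : ℚ) * (y - 2 - j) := by exact_mod_cast s03 j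
      have c20 : ((sg a (shift a P (2, 0)) j : ℚ) : ℂ) * x = (sg a P j : ℚ) * (x - j) := by
        exact_mod_cast s20 j
      have h0 : ((sg a P j : ℚ) : ℂ) ≠ 0 := by exact_mod_cast hg0 j
      simp only [eval_add, eval_mul, eval_sub, eval_C, eval_X]
      apply (mul_eq_zero.1 _).resolve_left h0
      push_cast at hj
      linear_combination ((x : ℂ) * y * (y - 1) * (y - 2)) * hj -
        ((x : ℂ) * (y - 1) * (y - 2) * A (0, 1) * j + x * (y - 2) * b * (y - 1 - j) +
          x * B (0, 1) * (y - 2 - j) * (y - 1 - j)) * c01 -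
        ((x : ℂ) * y * (y - 2) * b + x * y * B (0, 1) * (y - 2 - j)) * c02 -
        ((x : ℂ) * y * (y - 1) * B (0, 1)) * c03 + ((y : ℂ) * (y - 1) * (y - 2) * B (1, 0)) * c20
  have F1 : ∀ z : ℂ, (y : ℂ) * (y - 1) * z * A (1, 0) + B (1, 0) * (y - z) * (y - 1 - z) -
      b * y * (y - 1) - B (0, 1) * (y - 1) * (y - z) = 0 := by
    intro z
    have h := PT_poly (C ((y : ℂ) * (y - 1) * A (1, 0)) * X +
      C (B (1, 0)) * (C (y : ℂ) - X) * (C ((y : ℂ) - 1) - X) - C (b * y * (y - 1)) -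
      C (B (0, 1) * ((y : ℂ) - 1)) * (C (y : ℂ) - X)) ?_ z
    · simp only [eval_add, eval_mul, eval_sub, eval_C, eval_X] at h
      linear_combination h
    · filter_upwards [hR1] with j hj
      rw [E1 j] at hj
      have c11 : ((sg a (shift a P (1, 1)) j : ℚ) : ℂ) * y =
          (sg a (shift a P (1, 0)) j : ℚ) * (y - j) := by exact_mod_cast s11 j
      have c12 : ((sg a (shift a P (1, 2)) j : ℚ) : ℂ) * (y - 1) =
          (sg a (shift a P (1, 1)) j : ℚ) * (y - 1 - j) := by exact_mod_cast s12 j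
      have h1 : ((sg a (shift a P (1, 0)) j : ℚ) : ℂ) ≠ 0 := by exact_mod_cast hg1 j
      simp only [eval_add, eval_mul, eval_sub, eval_C, eval_X]
      apply (mul_eq_zero.1 _).resolve_left h1
      push_cast at hj
      linear_combination ((y : ℂ) * (y - 1)) * hj -
        (B (1, 0) * ((y : ℂ) - 1 - j) - ((y : ℂ) - 1) * B (0, 1)) * c11 -
        ((y : ℂ) * B (1, 0)) * c12
  obtain ⟨r1, r2, r3, r4, r5, r6⟩ := PT_alg x y _ _ _ b _ _ hx_0 hy_0 hy_1 hy_2 F0 F1
  constructor
  · rw [hA]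
    intro o ho
    simp only [mem_insert, mem_singleton] at ho
    rcases ho with rfl | rfl | rfl
    · exact r1
    · exact r2
    · exact r3
  · rw [hB]
    intro o ho
    rw [mem_union] at ho
    rcases ho with ho | ho
    · by_cases hc : 1 ≤ P.1 ∧ 1 ≤ P.2
      · rw [L0, if_pos hc, mem_singleton] at ho
        rw [ho, ← r4, hb, if_pos hc]
      · rw [L0, if_neg hc] at ho
        exact absurd ho (notMem_empty o)
    · simp only [mem_insert, mem_singleton] at ho
      rcases ho with rfl | rfl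
      · exact r5
      · exact r6

end Pool.Agent.LK
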