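import Pool.Agent.helper96.LK.SpecH

/-!
# Project lk: (MP_940ffa_an), statement PV
-/

open Finset Filter Polynomial

noncomputable section

namespace Pool.Agent.LK

/-- a polynomial vanishing at all large naturals is zero -/
theorem PV_poly (p : Polynomial ℂ) (h : ∀ᶠ j : ℕ in atTop, p.eval (j : ℂ) = 0) (z : ℂ) :
    p.eval z = 0 := by
  have hp : p = 0 := by
    apply Polynomial.eq_zero_of_infinite_isRoot
    obtain ⟨N, hN⟩ := eventually_atTop.1 h
    have h1 : ((fun j : ℕ => (j : ℂ)) '' Set.Ici N).Infinite :=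
      (Set.Ici_infinite N).image (fun a _ b _ hab => by exact_mod_cast hab)
    refine h1.mono ?_
    rintro _ ⟨j, hj, rfl⟩
    exact hN j hj
  rw [hp, Polynomial.eval_zero]

/-- shift by `β`, general offset -/
theorem PV_beta {a : ℤ} (ha : 2 ≤ a) (P : Pt) (m n : ℤ) (j : ℕ) :
    sg a (shift a P (m, n + 1)) j * (yy a P - n) =
      sg a (shift a P (m, n)) j * (yy a P - n - j) := by
  have h := sg_beta ha (shift a P (m, n)) j
  rw [shift_shift, yy_shift ha] at h
  have e : ((m, n) : Pt) + (0, 1) = (m, n + 1) := by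
    simp
  rw [e] at h
  exact h

/-- shift by `2 α`, general offset -/
theorem PV_alpha {a : ℤ} (ha : 2 ≤ a) (P : Pt) (m n : ℤ) (j : ℕ) :
    sg a (shift a P (m + 2, n)) j * (xx a P - m / 2) =
      sg a (shift a P (m, n)) j * (xx a P - m / 2 - j) := by
  have h := sg_alpha2 ha (shift a P (m, n)) j
  rw [shift_shift, xx_shift ha] at h
  have e : ((m, n) : Pt) + (2, 0) = (m + 2, n) := by
    simp
  rw [e] at h
  exact h

/-- the algebraic part -/
theorem PV_alg (x y x1 A00 A01 A10 c A2 B01 B10 B2 : ℂ) (hx : x ≠ 0) (hx1 : x1 ≠ 0)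
    (hyn : ∀ z : ℤ, y ≠ z) (hxy : x - y - 1 ≠ 0)
    (F0 : ∀ z : ℂ, (y + 1 - z) * (x * y * (y - 1) * (y - 2) * z * A00 +
      x * (y - 1) * (y - 2) * z * (y - z) * A01 +
      B01 * x * (y - z) * (y - 1 - z) * (y - 2 - z) + B2 * (y - 1) * (y - 2) * (x - z) * (y - z) -
      B10 * y * (y - 1) * (y - 2) * (x - z)) +
      A2 * y * (y - 1) * (y - 2) * (y + 1) * z * (x - z) = 0)
    (F1 : ∀ z : ℂ, (y + 1 - z) * (x1 * y * (y - 1) * z * A10 + x1 * B10 * (y - z) * (y - 1 - z) -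
      x1 * B01 * (y - 1) * (y - z)) + x1 * y * (y - 1) * (y + 1) * z * c -
      B2 * y * (y - 1) * (y + 1) * (x1 - z) = 0) :
    A00 = 0 ∧ A01 = 0 ∧ A10 = 0 ∧ c = 0 ∧ A2 = 0 ∧ B01 = 0 ∧ B10 = 0 ∧ B2 = 0 := by
  have hy : y ≠ 0 := by exact_mod_cast hyn 0
  have hy1 : y - 1 ≠ 0 := sub_ne_zero.2 (by exact_mod_cast hyn 1)
  have hy2 : y - 2 ≠ 0 := sub_ne_zero.2 (by exact_mod_cast hyn 2)
  have hyp : y + 1 ≠ 0 := by
    intro h
    apply hyn (-1)
    push_cast
    linear_combination h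
  have hym1 : y + 1 - 1 ≠ 0 := by
    rw [add_sub_cancel_right]
    exact hy
  have hym2 : y + 1 - 2 ≠ 0 := by
    have e : y + 1 - 2 = y - 1 := by ring
    rw [e]
    exact hy1
  have hym3 : y + 1 - 3 ≠ 0 := by
    have e : y + 1 - 3 = y - 2 := by ring
    rw [e]
    exact hy2
  have e0 : A2 = 0 := by
    have h : (y * (y - 1) * (y - 2) * (y + 1) * (y + 1) * (x - y - 1)) * A2 = 0 := by
      linear_combination F0 (y + 1)
    exact (mul_eq_zero.1 h).resolve_left (mul_ne_zero (mul_ne_zero (mul_ne_zero (mul_ne_zero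
      (mul_ne_zero hy hy1) hy2) hyp) hyp) hxy)
  subst e0
  have G0 : ∀ z : ℂ, y + 1 - z ≠ 0 → (x * y * (y - 1) * (y - 2) * z * A00 +
      x * (y - 1) * (y - 2) * z * (y - z) * A01 +
      B01 * x * (y - z) * (y - 1 - z) * (y - 2 - z) + B2 * (y - 1) * (y - 2) * (x - z) * (y - z) -
      B10 * y * (y - 1) * (y - 2) * (x - z)) = 0 := by
    intro z hz
    have h := F0 z
    rw [zero_mul, zero_mul, zero_mul, zero_mul, zero_mul, zero_mul, add_zero] at h
    exact (mul_eq_zero.1 h).resolve_left hz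
  have g0 := G0 0 (by rw [sub_zero]; exact hyp)
  have g1 := G0 1 hym1
  have g2 := G0 2 hym2
  have g3 := G0 3 hym3
  have gy := G0 y (by rw [add_sub_cancel_left]; exact one_ne_zero)
  have e1 : B01 = 0 := by
    have h : x * B01 = 0 := by
      linear_combination (-1 / 6) * g3 + (1 / 2) * g2 - (1 / 2) * g1 + (1 / 6) * g0
    exact (mul_eq_zero.1 h).resolve_left hx
  subst e1
  have e2 : B2 = B10 := by
    have h : (x * y * (y - 1) * (y - 2)) * (B2 - B10) = 0 := by
      linear_combination g0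
    exact sub_eq_zero.1 ((mul_eq_zero.1 h).resolve_left
      (mul_ne_zero (mul_ne_zero (mul_ne_zero hx hy) hy1) hy2))
  subst e2
  have e3 : B2 = 0 := by
    have h : x1 * B2 = 0 := by
      linear_combination (-1 / 6) * F1 3 + (1 / 2) * F1 2 - (1 / 2) * F1 1 + (1 / 6) * F1 0
    exact (mul_eq_zero.1 h).resolve_left hx1
  subst e3
  have e4 : c = 0 := by
    have h : (x1 * y * (y - 1) * (y + 1) * (y + 1)) * c = 0 := by
      linear_combination F1 (y + 1)
    exact (mul_eq_zero.1 h).resolve_left (mul_ne_zero (mul_ne_zero (mul_ne_zero (mul_ne_zero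
      hx1 hy) hy1) hyp) hyp)
  subst e4
  have e5 : A10 = 0 := by
    have h : (y * (x1 * y * (y - 1))) * A10 = 0 := by linear_combination F1 1
    exact (mul_eq_zero.1 h).resolve_left (mul_ne_zero hy (mul_ne_zero (mul_ne_zero hx1 hy) hy1))
  subst e5
  have e6 : A00 = 0 := by
    have h : (x * y * (y - 1) * (y - 2) * y) * A00 = 0 := by linear_combination gy
    exact (mul_eq_zero.1 h).resolve_left
      (mul_ne_zero (mul_ne_zero (mul_ne_zero (mul_ne_zero hx hy) hy1) hy2) hy)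
  subst e6
  have e7 : A01 = 0 := by
    have h : (x * (y - 1) * (y - 2) * (y - 1)) * A01 = 0 := by linear_combination g1
    exact (mul_eq_zero.1 h).resolve_left
      (mul_ne_zero (mul_ne_zero (mul_ne_zero hx hy1) hy2) hy1)
  exact ⟨rfl, e7, rfl, rfl, rfl, rfl, rfl, rfl⟩

/-- the exceptional equation has no solution -/
theorem PV_xy {a dl : ℤ} (ha : 11 ≤ a) (h1 : dl ≤ 1) {P : Pt} (hV : isV a dl P) :
    xx a P - yy a P - 1 ≠ 0 := by
  intro h
  have hd := den_ne (show 2 ≤ a by omega)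
  rw [xx, yy, mu, nu] at h
  have h2 : 2 * ((a : ℚ) * (P.2 - 1) - (P.1 - 1)) - ((a : ℚ) * (P.1 - 1) - (P.2 - 1)) -
      2 * ((a : ℚ) ^ 2 - 1) = 0 := by
    field_simp at h
    linear_combination h
  have h3 : 2 * (a * (P.2 - 1) - (P.1 - 1)) - (a * (P.1 - 1) - (P.2 - 1)) - 2 * (a ^ 2 - 1) = 0 := by
    exact_mod_cast h2
  rcases hV with ⟨e1, e2, e3⟩ | ⟨e1, e2, e3⟩ | ⟨e1, e2⟩
  · rw [e1] at h3
    -- (2a+1)(a-1-q) = 3
    have h4 : (2 * a + 1) * (a - P.2) = 3 := by linarith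
    have h5 : 0 < a - P.2 := by
      by_contra hc
      push Not at hc
      nlinarith
    nlinarith
  · rw [e1] at h3
    nlinarith
  · rw [e1, e2] at h3
    nlinarith

theorem PV (NI : NI_stmt) : PV_stmt := by
  intro a dl ha h0 h1 P hP hV A B hR
  have ha2 : 2 ≤ a := by omega
  have hxz : ∀ z : ℤ, xx a P ≠ z := fun z => by
    have := (NI a dl ha h0 h1 P hP (0, 0) z).1
    rwa [shift_zero] at this
  have hyz : ∀ z : ℤ, yy a P ≠ z := fun z => by
    have := (NI a dl ha h0 h1 P hP (0, 0) z).2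
    rwa [shift_zero] at this
  have hx1z : ∀ z : ℤ, xx a (shift a P (1, 0)) ≠ z := fun z => (NI a dl ha h0 h1 P hP (1, 0) z).1
  have hy1z : ∀ z : ℤ, yy a (shift a P (1, 0)) ≠ z := fun z => (NI a dl ha h0 h1 P hP (1, 0) z).2
  -- the sets
  have hS : ¬isS dl P := by
    simp only [isS, isV] at hV ⊢
    omega
  have hT : ¬isT a dl P := by
    simp only [isT, isV] at hV ⊢
    omega
  have hU : ¬isU a dl P := by
    simp only [isU, isV] at hV ⊢
    omega
  have hW : ¬isW a dl P := by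
    simp only [isW, isV] at hV ⊢
    omega
  have hA : LA a dl P = {(0, 0), (1, -1), (0, 1), (1, 0), (2, -1)} := by
    rw [LA, if_neg hS, if_neg hT, if_neg hU, if_neg hW, if_pos hV]
  have hB : LB a dl P = {(0, 1), (1, 0), (2, -1)} := by
    rw [LB, if_neg hS, if_neg (by tauto), if_pos hV]
  have sA : ∀ f : Pt → ℂ, ∑ o ∈ ({(0, 0), (1, -1), (0, 1), (1, 0), (2, -1)} : Finset Pt), f o =
      f (0, 0) + (f (1, -1) + (f (0, 1) + (f (1, 0) + f (2, -1)))) := fun f => by
    rw [sum_insert (by decide), sum_insert (by decide), sum_insert (by decide),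
      sum_insert (by decide), sum_singleton]
  have sB : ∀ f : Pt → ℂ, ∑ o ∈ ({(0, 1), (1, 0), (2, -1)} : Finset Pt), f o =
      f (0, 1) + (f (1, 0) + f (2, -1)) := fun f => by
    rw [sum_insert (by decide), sum_insert (by decide), sum_singleton]
  set x := xx a P with hx
  set y := yy a P with hy
  set x1 := xx a (shift a P (1, 0)) with hx1
  -- shifts
  have s01 : ∀ j : ℕ, sg a (shift a P (0, 1)) j * y = sg a P j * (y - j) := fun j =>
    sg_beta ha2 P j
  have s02 : ∀ j : ℕ, sg a (shift a P (0, 2)) j * (y - 1) =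
      sg a (shift a P (0, 1)) j * (y - 1 - j) := fun j => by
    have h := PV_beta ha2 P 0 1 j
    norm_num at h
    exact h
  have s03 : ∀ j : ℕ, sg a (shift a P (0, 3)) j * (y - 2) =
      sg a (shift a P (0, 2)) j * (y - 2 - j) := fun j => by
    have h := PV_beta ha2 P 0 2 j
    norm_num at h
    exact h
  have s20 : ∀ j : ℕ, sg a (shift a P (2, 0)) j * x = sg a P j * (x - j) := fun j =>
    sg_alpha2 ha2 P j
  have s21 : ∀ j : ℕ, sg a (shift a P (2, 1)) j * y = sg a (shift a P (2, 0)) j * (y - j) :=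
    fun j => by
    have h := PV_beta ha2 P 2 0 j
    norm_num at h
    exact h
  have s2m : ∀ j : ℕ, sg a (shift a P (2, 0)) j * (y + 1) =
      sg a (shift a P (2, -1)) j * (y + 1 - j) := fun j => by
    have h := PV_beta ha2 P 2 (-1) j
    norm_num at h
    exact h
  have s11 : ∀ j : ℕ, sg a (shift a P (1, 1)) j * y = sg a (shift a P (1, 0)) j * (y - j) :=
    fun j => by
    have h := PV_beta ha2 P 1 0 j
    norm_num at h
    exact h
  have s12 : ∀ j : ℕ, sg a (shift a P (1, 2)) j * (y - 1) =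
      sg a (shift a P (1, 1)) j * (y - 1 - j) := fun j => by
    have h := PV_beta ha2 P 1 1 j
    norm_num at h
    exact h
  have s1m : ∀ j : ℕ, sg a (shift a P (1, 0)) j * (y + 1) =
      sg a (shift a P (1, -1)) j * (y + 1 - j) := fun j => by
    have h := PV_beta ha2 P 1 (-1) j
    norm_num at h
    exact h
  have s3m : ∀ j : ℕ, sg a (shift a P (3, 0)) j * (y + 1) =
      sg a (shift a P (3, -1)) j * (y + 1 - j) := fun j => by
    have h := PV_beta ha2 P 3 (-1) j
    norm_num at h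
    exact h
  have s30 : ∀ j : ℕ, sg a (shift a P (3, 0)) j * x1 =
      sg a (shift a P (1, 0)) j * (x1 - j) := fun j => by
    have h := sg_alpha2 ha2 (shift a P (1, 0)) j
    rw [shift_shift] at h
    have e : ((1, 0) : Pt) + (2, 0) = (3, 0) := by decide
    rw [e] at h
    exact h
  have hg0 : ∀ j : ℕ, sg a P j ≠ 0 := fun j => mul_ne_zero (ch_ne_zero hxz j) (ch_ne_zero hyz j)
  have hg1 : ∀ j : ℕ, sg a (shift a P (1, 0)) j ≠ 0 := fun j =>
    mul_ne_zero (ch_ne_zero hx1z j) (ch_ne_zero hy1z j)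
  obtain ⟨hR0, hR1⟩ := hR
  have E0 : ∀ j : ℕ, Rel a dl A B P 0 j = A (0, 0) * ((j * sg a P j : ℚ) : ℂ) +
      A (0, 1) * ((j * sg a (shift a P (0, 1)) j : ℚ) : ℂ) +
      A (2, -1) * ((j * sg a (shift a P (2, -1)) j : ℚ) : ℂ) +
      B (0, 1) * ((sg a (shift a P (0, 3)) j : ℚ) : ℂ) +
      B (2, -1) * ((sg a (shift a P (2, 1)) j : ℚ) : ℂ) -
      B (1, 0) * ((sg a (shift a P (2, 0)) j : ℚ) : ℂ) := fun j => by
    rw [Rel, hA, hB, sum_filter, sum_filter, sum_filter, sA, sB, sB, shift_zero]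
    norm_num
    ring
  have E1 : ∀ j : ℕ, Rel a dl A B P 1 j =
      A (1, -1) * ((j * sg a (shift a P (1, -1)) j : ℚ) : ℂ) +
      A (1, 0) * ((j * sg a (shift a P (1, 0)) j : ℚ) : ℂ) +
      B (1, 0) * ((sg a (shift a P (1, 2)) j : ℚ) : ℂ) -
      B (0, 1) * ((sg a (shift a P (1, 1)) j : ℚ) : ℂ) -
      B (2, -1) * ((sg a (shift a P (3, -1)) j : ℚ) : ℂ) := fun j => by
    rw [Rel, hA, hB, sum_filter, sum_filter, sum_filter, sA, sB, sB]
    norm_num
    ring
  have hyC : ∀ z : ℤ, (y : ℂ) ≠ z := fun z h => hyz z (by exact_mod_cast h)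
  have hx_0 : (x : ℂ) ≠ 0 := fun h => hxz 0 (by exact_mod_cast h)
  have hx1_0 : (x1 : ℂ) ≠ 0 := fun h => hx1z 0 (by exact_mod_cast h)
  have hxyC : (x : ℂ) - y - 1 ≠ 0 := by
    have h := PV_xy ha h1 hV
    exact_mod_cast h
  have F0 : ∀ z : ℂ, ((y : ℂ) + 1 - z) * ((x : ℂ) * y * (y - 1) * (y - 2) * z * A (0, 0) +
      x * (y - 1) * (y - 2) * z * (y - z) * A (0, 1) +
      B (0, 1) * x * (y - z) * (y - 1 - z) * (y - 2 - z) +
      B (2, -1) * (y - 1) * (y - 2) * (x - z) * (y - z) -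
      B (1, 0) * y * (y - 1) * (y - 2) * (x - z)) +
      A (2, -1) * y * (y - 1) * (y - 2) * (y + 1) * z * (x - z) = 0 := by
    intro z
    have h := PV_poly ((C ((y : ℂ) + 1) - X) * (C ((x : ℂ) * y * (y - 1) * (y - 2) * A (0, 0)) * X +
      C ((x : ℂ) * (y - 1) * (y - 2) * A (0, 1)) * X * (C (y : ℂ) - X) +
      C (B (0, 1) * x) * (C (y : ℂ) - X) * (C ((y : ℂ) - 1) - X) * (C ((y : ℂ) - 2) - X) +
      C (B (2, -1) * (y - 1) * (y - 2)) * (C (x : ℂ) - X) * (C (y : ℂ) - X) -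
      C (B (1, 0) * y * (y - 1) * (y - 2)) * (C (x : ℂ) - X)) +
      C (A (2, -1) * y * (y - 1) * (y - 2) * (y + 1)) * X * (C (x : ℂ) - X)) ?_ z
    · simp only [eval_add, eval_mul, eval_sub, eval_C, eval_X] at h
      linear_combination h
    · filter_upwards [hR0] with j hj
      rw [E0 j] at hj
      have c01 : ((sg a (shift a P (0, 1)) j : ℚ) : ℂ) * y = (sg a P j : ℚ) * (y - j) := by
        exact_mod_cast s01 j
      have c02 : ((sg a (shift a P (0, 2)) j : ℚ) : ℂ) * (y - 1) =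
          (sg a (shift a P (0, 1)) j : ℚ) * (y - 1 - j) := by exact_mod_cast s02 j
      have c03 : ((sg a (shift a P (0, 3)) j : ℚ) : ℂ) * (y - 2) =
          (sg a (shift a P (0, 2)) j : ℚ) * (y - 2 - j) := by exact_mod_cast s03 j
      have c20 : ((sg a (shift a P (2, 0)) j : ℚ) : ℂ) * x = (sg a P j : ℚ) * (x - j) := by
        exact_mod_cast s20 j
      have c21 : ((sg a (shift a P (2, 1)) j : ℚ) : ℂ) * y =
          (sg a (shift a P (2, 0)) j : ℚ) * (y - j) := by exact_mod_cast s21 j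
      have c2m : ((sg a (shift a P (2, 0)) j : ℚ) : ℂ) * (y + 1) =
          (sg a (shift a P (2, -1)) j : ℚ) * (y + 1 - j) := by exact_mod_cast s2m j
      have g0 : ((sg a P j : ℚ) : ℂ) ≠ 0 := by exact_mod_cast hg0 j
      simp only [eval_add, eval_mul, eval_sub, eval_C, eval_X]
      apply (mul_eq_zero.1 _).resolve_left g0
      push_cast at hj
      linear_combination ((y : ℂ) + 1 - j) * ((x : ℂ) * y * (y - 1) * (y - 2)) * hj -
        ((y : ℂ) + 1 - j) * ((x : ℂ) * (y - 1) * (y - 2) * A (0, 1) * j +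
          x * B (0, 1) * (y - 2 - j) * (y - 1 - j)) * c01 -
        ((y : ℂ) + 1 - j) * (x * y * B (0, 1) * (y - 2 - j)) * c02 -
        ((y : ℂ) + 1 - j) * ((x : ℂ) * y * (y - 1) * B (0, 1)) * c03 +
        ((y : ℂ) + 1 - j) * ((y : ℂ) * (y - 1) * (y - 2) * B (1, 0) -
          (y - 1) * (y - 2) * B (2, -1) * (y - j)) * c20 -
        ((y : ℂ) + 1 - j) * ((x : ℂ) * (y - 1) * (y - 2) * B (2, -1)) * c21 +
        ((x : ℂ) * y * (y - 1) * (y - 2) * A (2, -1) * j) * c2m -
        ((y : ℂ) * (y - 1) * (y - 2) * A (2, -1) * j * (y + 1)) * c20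
  have F1 : ∀ z : ℂ, ((y : ℂ) + 1 - z) * ((x1 : ℂ) * y * (y - 1) * z * A (1, 0) +
      x1 * B (1, 0) * (y - z) * (y - 1 - z) -
      x1 * B (0, 1) * (y - 1) * (y - z)) + x1 * y * (y - 1) * (y + 1) * z * A (1, -1) -
      B (2, -1) * y * (y - 1) * (y + 1) * (x1 - z) = 0 := by
    intro z
    have h := PV_poly ((C ((y : ℂ) + 1) - X) * (C ((x1 : ℂ) * y * (y - 1) * A (1, 0)) * X +
      C (x1 * B (1, 0)) * (C (y : ℂ) - X) * (C ((y : ℂ) - 1) - X) -
      C (x1 * B (0, 1) * ((y : ℂ) - 1)) * (C (y : ℂ) - X)) +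
      C (x1 * y * (y - 1) * (y + 1) * A (1, -1)) * X -
      C (B (2, -1) * y * (y - 1) * (y + 1)) * (C (x1 : ℂ) - X)) ?_ z
    · simp only [eval_add, eval_mul, eval_sub, eval_C, eval_X] at h
      linear_combination h
    · filter_upwards [hR1] with j hj
      rw [E1 j] at hj
      have c11 : ((sg a (shift a P (1, 1)) j : ℚ) : ℂ) * y =
          (sg a (shift a P (1, 0)) j : ℚ) * (y - j) := by exact_mod_cast s11 j
      have c12 : ((sg a (shift a P (1, 2)) j : ℚ) : ℂ) * (y - 1) =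
          (sg a (shift a P (1, 1)) j : ℚ) * (y - 1 - j) := by exact_mod_cast s12 j
      have c1m : ((sg a (shift a P (1, 0)) j : ℚ) : ℂ) * (y + 1) =
          (sg a (shift a P (1, -1)) j : ℚ) * (y + 1 - j) := by exact_mod_cast s1m j
      have c3m : ((sg a (shift a P (3, 0)) j : ℚ) : ℂ) * (y + 1) =
          (sg a (shift a P (3, -1)) j : ℚ) * (y + 1 - j) := by exact_mod_cast s3m j
      have c30 : ((sg a (shift a P (3, 0)) j : ℚ) : ℂ) * x1 =
          (sg a (shift a P (1, 0)) j : ℚ) * (x1 - j) := by exact_mod_cast s30 j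
      have g1 : ((sg a (shift a P (1, 0)) j : ℚ) : ℂ) ≠ 0 := by exact_mod_cast hg1 j
      simp only [eval_add, eval_mul, eval_sub, eval_C, eval_X]
      apply (mul_eq_zero.1 _).resolve_left g1
      push_cast at hj
      linear_combination ((y : ℂ) + 1 - j) * ((x1 : ℂ) * y * (y - 1)) * hj -
        ((y : ℂ) + 1 - j) * (x1 * B (1, 0) * ((y : ℂ) - 1 - j) -
          x1 * ((y : ℂ) - 1) * B (0, 1)) * c11 -
        ((y : ℂ) + 1 - j) * ((x1 : ℂ) * y * B (1, 0)) * c12 +
        ((x1 : ℂ) * y * (y - 1) * j * A (1, -1)) * c1m -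
        ((x1 : ℂ) * y * (y - 1) * B (2, -1)) * c3m +
        ((y : ℂ) * (y - 1) * (y + 1) * B (2, -1)) * c30
  obtain ⟨r1, r2, r3, r4, r5, r6, r7, r8⟩ := PV_alg x y x1 _ _ _ _ _ _ _ _ hx_0 hx1_0 hyC hxyC F0 F1
  constructor
  · rw [hA]
    intro o ho
    simp only [mem_insert, mem_singleton] at ho
    rcases ho with rfl | rfl | rfl | rfl | rfl
    · exact r1
    · exact r4
    · exact r2
    · exact r3
    · exact r5
  · rw [hB]
    intro o ho
    simp only [mem_insert, mem_singleton] at ho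
    rcases ho with rfl | rfl | rfl
    · exact r6
    · exact r7
    · exact r8

end Pool.Agent.LK
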